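import Pool.Agent.H93.GT.Targets

/-!
# Board `gdi_modules`: row GKS

The limit formula for the progressions (adapted from `Pool/Agent/H76/SC/KSP.lean`).
-/

set_option autoImplicit false

open Filter Topology

namespace Pool.Agent.H70.GT

open Pool.Agent.H93.GT Pool.Agent.H87.Synth Pool.Agent.H85.SC Finset
open Pool.Agent.H93.ET (sg jj iE iA T_KKL T_CUT T_BRK T_SER T_CRI)

theorem ind_neg {P : ℤ → Prop} {z : ℤ} (h : ¬ P z) : ind P z = 0 := by
  unfold ind
  simp [h]

theorem gks (h1 : T_APD) (h2 : T_GSV) (h3 : T_KLM) (h4 : T_GAM) (h5 : T_MUL) (h6 : T_GIV)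
    (h7 : T_LNS) : T_GKS := by
  classical
  intro d P S hS Λ f hΛ n hn x y u hx hy hu t ht
  obtain ⟨s, hs⟩ : ∃ s, s = Nat.size n := ⟨_, rfl⟩
  -- existence of the pieces
  have exK : ∀ b, ∃ v : L1, Act (ind (inK n b)) f v := fun b => by
    obtain ⟨v, hv, _⟩ := h5.2.2.2.2.2.2.2.1 _ _ (h4.2.2.2.1 n b) f
    exact ⟨v, hv⟩
  choose K hK using exK
  have huniq := h5.2.2.2.2.2.2.2.2.2
  have hns : n < 2 ^ s := by
    rw [hs]
    exact Nat.lt_size_self n
  -- the remaining pieces
  obtain ⟨W, hW⟩ : ∃ W : ℕ → L1, W = fun b => K b - K (b + 1) - t b := ⟨_, rfl⟩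
  have hWc : ∀ b, s ≤ b → ∀ z, coeff (W b) z =
      (ind (fun z => (4 : ℤ) ^ (b + 1) ∣ z - cc n - 4 ^ b) z +
        ind (fun z => (4 : ℤ) ^ (b + 1) ∣ z - cc n - 3 * 4 ^ b) z) * coeff f z := by
    intro b hb z
    have hnb : n < 2 ^ b := hns.trans_le (Nat.pow_le_pow_right (by norm_num) hb)
    have e1 : K b = W b + t b + K (b + 1) := by
      rw [hW]
      change K b = K b - K (b + 1) - t b + t b + K (b + 1)
      rw [sub_add_cancel, sub_add_cancel]
    have e2 := hK b z
    rw [e1, coeff_add, coeff_add, hK (b + 1) z, ht b z, h1.2.2.2.1 n b hnb z] at e2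
    linear_combination e2
  have hstep : ∀ b, K b = W b + t b + K (b + 1) := by
    intro b
    rw [hW]
    change K b = K b - K (b + 1) - t b + t b + K (b + 1)
    rw [sub_add_cancel, sub_add_cancel]
  have hsu : K s = u := huniq _ f _ _ (hK s) (by rw [hs]; exact hu)
  have hsW : W s = x + y := by
    refine huniq (fun z => ind (fun z => (4 : ℤ) ^ (s + 1) ∣ z - cc n - 4 ^ s) z +
        ind (fun z => (4 : ℤ) ^ (s + 1) ∣ z - cc n - 3 * 4 ^ s) z) f _ _ (hWc s le_rfl) ?_
    intro z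
    rw [coeff_add, hx z, hy z, hs]
    change ind (fun z => (4 : ℤ) ^ (Nat.size n + 1) ∣ z - cc n - 4 ^ Nat.size n) z * coeff f z +
      ind (fun z => (4 : ℤ) ^ (Nat.size n + 1) ∣ z - cc n - 3 * 4 ^ Nat.size n) z * coeff f z = _
    ring
  -- elements of classes lie in the lines of the nodes of the tree
  have hzero : ∀ v : L1, (∀ z, coeff v z ≠ 0 → ∀ n', n' ∈ S → ¬ inh n' z ∧ ¬ ing n' z) →
      Λ v = 0 := by
    intro v hv
    refine h2 d P S Λ hΛ v fun z c hz => ?_
    by_contra hne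
    rcases h6 d P S hS c z hz with ⟨m, i, hm, hr⟩ | ⟨m, i, t', κ, s', hm, -, -, -, hκ, rfl⟩
    · have hl := hr.2.2.2.1
      have hlc : lc i = 1 ∨ lc i = 3 := by
        unfold lc
        split_ifs
        · exact Or.inl rfl
        · exact Or.inr rfl
      rcases hlc with h | h
      · rw [h] at hl
        exact (hv z hne m hm).1 (h7.2.2.2.1 m 4 z hl)
      · rw [h] at hl
        exact (hv z hne m hm).2 (h7.2.2.2.2.1 m 4 z hl)
    · obtain ⟨hl, -, h⟩ := h7.2.2.2.2.2.1 m i t' κ s' hκ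
      rcases h with h | h
      · rw [h] at hl
        exact (hv _ hne m hm).1 (h7.2.2.2.1 m _ _ hl)
      · rw [h] at hl
        exact (hv _ hne m hm).2 (h7.2.2.2.2.1 m _ _ hl)
  have hW0 : ∀ b, s < b → Λ (W b) = 0 := by
    intro b hb
    apply hzero
    intro z hz n' _
    rw [hWc b hb.le z] at hz
    have hz1 : (4 : ℤ) ^ (b + 1) ∣ z - cc n - 4 ^ b ∨ (4 : ℤ) ^ (b + 1) ∣ z - cc n - 3 * 4 ^ b := by
      by_contra hcon
      rw [not_or] at hcon
      apply left_ne_zero_of_mul hz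
      rw [ind_neg (P := fun z => (4 : ℤ) ^ (b + 1) ∣ z - cc n - 4 ^ b) hcon.1,
        ind_neg (P := fun z => (4 : ℤ) ^ (b + 1) ∣ z - cc n - 3 * 4 ^ b) hcon.2, add_zero]
    exact h1.2.2.2.2.1 n b n' z (by rw [← hs]; exact hb) hz1
  have hsize : ∀ b, s ≤ b → Nat.size (n + 2 ^ b) = b + 1 := by
    intro b hb
    have hnb : n < 2 ^ b := hns.trans_le (Nat.pow_le_pow_right (by norm_num) hb)
    apply le_antisymm
    · rw [Nat.size_le, pow_succ]
      omega
    · have : b < Nat.size (n + 2 ^ b) := Nat.lt_size.2 (by omega)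
      omega
  have ht0 : ∀ b, s ≤ b → n + 2 ^ b ∉ S → Λ (t b) = 0 := by
    intro b hb hbS
    apply hzero
    intro z hz n' hn'
    rw [ht b z] at hz
    have hz1 : inK (n + 2 ^ b) (b + 1) z := by
      by_contra hcon
      apply left_ne_zero_of_mul hz
      exact ind_neg hcon
    rw [← hsize b hb] at hz1
    have h := h1.2.2.2.2.2.2 S hS (n + 2 ^ b) hbS z hz1 n'
    exact ⟨fun h1 => h (Or.inl h1) hn', fun h1 => h (Or.inr h1) hn'⟩
  have hex : Λ (ex (cc n)) = 0 := by
    apply hzero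
    intro z hz n' _
    rw [coeff_ex] at hz
    have : cc n = z := by
      by_contra hcon
      rw [if_neg hcon] at hz
      exact hz rfl
    rw [← this]
    exact h1.2.2.2.2.2.1 n n'
  -- the sum
  have hsum : ∀ a, s + 1 ≤ a → Λ u = Λ (K a) + Λ x + Λ y + ∑ b ∈ Finset.Ico s a, Λ (t b) := by
    intro a ha
    induction a, ha using Nat.le_induction with
    | base =>
      have h := hstep s
      rw [hsu, hsW] at h
      rw [h]
      simp only [map_add, Nat.Ico_succ_singleton, Finset.sum_singleton]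
      ring
    | succ a ha ih =>
      rw [ih, hstep a, Finset.sum_Ico_succ_top (by omega)]
      simp only [map_add]
      rw [hW0 a (by omega)]
      ring
  have hkids : ∀ a, ∑ b ∈ kids S n a, Λ (t b) = ∑ b ∈ Finset.Ico s a, Λ (t b) := by
    intro a
    unfold kids
    rw [← hs, Finset.sum_filter]
    apply Finset.sum_congr rfl
    intro b hb
    rw [Finset.mem_Ico] at hb
    by_cases h : n + 2 ^ b ∈ S
    · rw [if_pos h]
    · rw [if_neg h, ht0 b hb.1 h]
  have hlim : Tendsto (fun a => Λ (K a)) atTop (𝓝 0) := by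
    have hKl : Tendsto K atTop (𝓝 (coeff f (cc n) • ex (cc n))) := by
      rw [Metric.tendsto_atTop]
      intro ε hε
      obtain ⟨A, hA⟩ := h3 n f ε hε
      refine ⟨A, fun a ha => ?_⟩
      rw [dist_eq_norm]
      exact hA a ha _ (hK a)
    have := (Λ.continuous.tendsto _).comp hKl
    rw [map_smul, hex, smul_zero] at this
    exact this
  have hfin : Tendsto (fun a => Λ u - Λ x - Λ y - Λ (K a)) atTop (𝓝 (Λ u - Λ x - Λ y - 0)) :=
    tendsto_const_nhds.sub hlim
  rw [sub_zero] at hfin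
  refine hfin.congr' ?_
  filter_upwards [eventually_ge_atTop (s + 1)] with a ha
  rw [hkids a, hsum a ha]
  ring

end Pool.Agent.H70.GT
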